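import Pool.Agent.Work.MP_92a29d_cert.h4431PP2_J0.O
import Pool.Agent.Work.MP_92a29d_cert.h4431PP2_J0.J0
import Pool.Agent.Work.MP_92a29d_cert.h4431PP2_J0.J1
import Pool.Agent.Work.MP_92a29d_cert.h4431PP2_J0.J2
import Pool.Agent.Work.MP_92a29d_cert.h4431PP2_J0.J3
import Pool.Agent.Work.MP_92a29d_cert.h4431PP2_J0.J4
import Pool.Agent.Work.MP_92a29d_cert.h4431PP2_J0.J5
import Pool.Agent.Work.MP_92a29d_cert.h4431PP2_J0.J6
import Pool.Agent.Work.MP_92a29d_cert.h4431PP2_J0.J7
import Pool.Agent.Work.MP_92a29d_cert.h4431PP2_J0.J8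
import Pool.Agent.Work.MP_92a29d_cert.h4431PP2_J0.J9
import Pool.Agent.Work.MP_92a29d_cert.h4431PP2_J0.J10
import Pool.Agent.Work.MP_92a29d_cert.h4431PP2_J0.J11
import Pool.Agent.Work.MP_92a29d_cert.h4431PP2_J0.J12
import Pool.Agent.Work.MP_92a29d_cert.h4431PP2_J0.J13
import Pool.Agent.Work.MP_92a29d_cert.h4431PP2_J0.J14
import Pool.Agent.Work.MP_92a29d_cert.h4431PP2_J0.J15
import Pool.Agent.Work.MP_92a29d_cert.h4431PP2_J0.J16
import Pool.Agent.Work.MP_92a29d_cert.h4431PP2_J0.J17
import Pool.Agent.Work.MP_92a29d_cert.h4431PP2_J0.J18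
import Pool.Agent.Work.MP_92a29d_cert.h4431PP2_J0.J19
import Pool.Agent.Work.MP_92a29d_cert.h4431PP2_J0.J20

/-! The instance has no model (generated). -/

set_option autoImplicit false
set_option maxRecDepth 100000

namespace Pool.Agent.Work.MP_92a29d_cert.h4431PP2_J0

open Pool.Agent.Work.MP_92a29d_co_h93 Pool.Agent.Work.MP_92a29d_co_h45

theorem hK : K0 = 2 ^ 1980 := by decide +kernel

theorem hA : A0 = 2 ^ (1980 - 12) - 2 ^ 12 := by decide +kernel

theorem hL : L 56552 = 0 := by decide +kernel

theorem unsat {M : Model} : ¬ IsModelX Pool.Agent.Work.MP_92a29d_co.Place.h4431PP2_J0 M := by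
  intro hM
  obtain ⟨τ, hz, hOM⟩ := Pool.Agent.Work.MP_92a29d_co_h45.OM_h4431PP2_J0.om_sound hM
  have h0 := origs_sound hz hA hOM okO
  have h1 := job_sound hz (by decide) hK hA ok0 (by decide) h0 sz0
  have h2 := job_sound hz (by decide) hK hA ok1 (by decide) h1 sz1
  have h3 := job_sound hz (by decide) hK hA ok2 (by decide) h2 sz2
  have h4 := job_sound hz (by decide) hK hA ok3 (by decide) h3 sz3
  have h5 := job_sound hz (by decide) hK hA ok4 (by decide) h4 sz4
  have h6 := job_sound hz (by decide) hK hA ok5 (by decide) h5 sz5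
  have h7 := job_sound hz (by decide) hK hA ok6 (by decide) h6 sz6
  have h8 := job_sound hz (by decide) hK hA ok7 (by decide) h7 sz7
  have h9 := job_sound hz (by decide) hK hA ok8 (by decide) h8 sz8
  have h10 := job_sound hz (by decide) hK hA ok9 (by decide) h9 sz9
  have h11 := job_sound hz (by decide) hK hA ok10 (by decide) h10 sz10
  have h12 := job_sound hz (by decide) hK hA ok11 (by decide) h11 sz11
  have h13 := job_sound hz (by decide) hK hA ok12 (by decide) h12 sz12
  have h14 := job_sound hz (by decide) hK hA ok13 (by decide) h13 sz13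
  have h15 := job_sound hz (by decide) hK hA ok14 (by decide) h14 sz14
  have h16 := job_sound hz (by decide) hK hA ok15 (by decide) h15 sz15
  have h17 := job_sound hz (by decide) hK hA ok16 (by decide) h16 sz16
  have h18 := job_sound hz (by decide) hK hA ok17 (by decide) h17 sz17
  have h19 := job_sound hz (by decide) hK hA ok18 (by decide) h18 sz18
  have h20 := job_sound hz (by decide) hK hA ok19 (by decide) h19 sz19
  have h21 := job_sound hz (by decide) hK hA ok20 (by decide) h20 sz20
  have h22 := job_sound hz (by decide) hK hA ok21 (by decide) h21 sz21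
  have h23 := job_sound hz (by decide) hK hA ok22 (by decide) h22 sz22
  have h24 := job_sound hz (by decide) hK hA ok23 (by decide) h23 sz23
  have h25 := job_sound hz (by decide) hK hA ok24 (by decide) h24 sz24
  have h26 := job_sound hz (by decide) hK hA ok25 (by decide) h25 sz25
  have h27 := job_sound hz (by decide) hK hA ok26 (by decide) h26 sz26
  have h28 := job_sound hz (by decide) hK hA ok27 (by decide) h27 sz27
  have h29 := job_sound hz (by decide) hK hA ok28 (by decide) h28 sz28
  have h30 := job_sound hz (by decide) hK hA ok29 (by decide) h29 sz29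
  have h31 := job_sound hz (by decide) hK hA ok30 (by decide) h30 sz30
  have h32 := job_sound hz (by decide) hK hA ok31 (by decide) h31 sz31
  have h33 := job_sound hz (by decide) hK hA ok32 (by decide) h32 sz32
  have h34 := job_sound hz (by decide) hK hA ok33 (by decide) h33 sz33
  have h35 := job_sound hz (by decide) hK hA ok34 (by decide) h34 sz34
  have h36 := job_sound hz (by decide) hK hA ok35 (by decide) h35 sz35
  have h37 := job_sound hz (by decide) hK hA ok36 (by decide) h36 sz36
  have h38 := job_sound hz (by decide) hK hA ok37 (by decide) h37 sz37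
  have h39 := job_sound hz (by decide) hK hA ok38 (by decide) h38 sz38
  have h40 := job_sound hz (by decide) hK hA ok39 (by decide) h39 sz39
  have h41 := job_sound hz (by decide) hK hA ok40 (by decide) h40 sz40
  exact not_mt hL (h41 56552 (by decide))

end Pool.Agent.Work.MP_92a29d_cert.h4431PP2_J0
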